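import Mathlib

/-!
# A graph with integral fractional broadcast number strictly between multipacking and broadcast number

The circulant graph `C_28(1, 4)`: its multipacking number is `3`, its fractional broadcast number is
`4` and its broadcast domination number is `5`.
-/

set_option autoImplicit false
set_option maxRecDepth 10000

namespace Pool.Agent.Results.MP_93535d_co.Circulant28

open Finset

variable {V : Type*} [Fintype V]

/-- the eccentricity of `v` -/
noncomputable def ecc (G : SimpleGraph V) (v : V) : ℕ := univ.sup (fun u => G.dist u v)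

/-- the vertices at distance at most `k` from `v` -/
noncomputable def ball (G : SimpleGraph V) (k : ℕ) (v : V) : Finset V :=
  univ.filter (fun u => G.dist u v ≤ k)

/-- dominating broadcasts -/
structure IsDominating (G : SimpleGraph V) (f : V → ℕ) : Prop where
  le_ecc : ∀ v, f v ≤ ecc G v
  hears : ∀ u, ∃ v, 1 ≤ f v ∧ G.dist u v ≤ f v

/-- the broadcast domination number -/
noncomputable def broadcastNumber (G : SimpleGraph V) : ℕ :=
  sInf {c | ∃ f : V → ℕ, IsDominating G f ∧ ∑ v, f v = c}

/-- multipackings: at most `k` elements within distance `k` of any vertex, for all `k ≥ 1` -/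
def IsMultipacking (G : SimpleGraph V) (M : Finset V) : Prop :=
  ∀ (v : V) (k : ℕ), 1 ≤ k → (M.filter (fun u => G.dist u v ≤ k)).card ≤ k

/-- the multipacking number -/
noncomputable def multipackingNumber (G : SimpleGraph V) : ℕ :=
  sSup {m | ∃ M : Finset V, IsMultipacking G M ∧ M.card = m}

/-- feasible points of the linear relaxation: weights `x v k ≥ 0` for `1 ≤ k ≤ e(v)` such that every
vertex `u` receives total weight at least `1` from the pairs `(v, k)` with `d(u, v) ≤ k` -/
structure IsFractional (G : SimpleGraph V) (x : V → ℕ → ℝ) : Prop where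
  nonneg : ∀ v k, 0 ≤ x v k
  hears : ∀ u, 1 ≤ ∑ v, ∑ k ∈ Icc 1 (ecc G v), if G.dist u v ≤ k then x v k else 0

/-- the fractional broadcast number, the optimum of the linear program -/
noncomputable def fractionalBroadcastNumber (G : SimpleGraph V) : ℝ :=
  sInf {c | ∃ x : V → ℕ → ℝ, IsFractional G x ∧ ∑ v, ∑ k ∈ Icc 1 (ecc G v), (k : ℝ) * x v k = c}

/-- the distances from `0` in the circulant graph -/
def D (x : Fin 28) : ℕ :=
  [0, 1, 2, 2, 1, 2, 3, 3, 2, 3, 4, 4, 3, 4, 5, 4, 3, 4, 4, 3, 2, 3, 3, 2, 1, 2, 2, 1].getD x.1 0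

/-- the circulant graph on `ℤ/28` with jumps `1` and `4` -/
def graph : SimpleGraph (Fin 28) where
  Adj a b := b - a = 1 ∨ a - b = 1 ∨ b - a = 4 ∨ a - b = 4
  symm := ⟨fun a b h => by tauto⟩
  loopless := ⟨fun a h => by simp at h⟩

instance : DecidableRel graph.Adj := fun a b => by unfold graph; infer_instance

omit [Fintype V] in
/-- distances from a potential -/
theorem dist_eq_of (G : SimpleGraph V) (h : V → V → ℕ) (h0 : ∀ u, h u u = 0)
    (h1 : ∀ u v w, G.Adj v w → h u w ≤ h u v + 1)
    (h2 : ∀ u v, u ≠ v → ∃ w, G.Adj w v ∧ h u v = h u w + 1) (u v : V) :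
    G.Reachable u v ∧ G.dist u v = h u v := by
  have hd : ∀ n u v, h u v = n → ∃ p : G.Walk u v, p.length = n := by
    intro n
    induction n with
    | zero =>
      intro u v e
      by_cases huv : u = v
      · subst huv; exact ⟨SimpleGraph.Walk.nil, rfl⟩
      · obtain ⟨w, -, hw⟩ := h2 u v huv; omega
    | succ n ih =>
      intro u v e
      have huv : u ≠ v := by rintro rfl; rw [h0] at e; omega
      obtain ⟨w, hw, hw'⟩ := h2 u v huv
      obtain ⟨p, hp⟩ := ih u w (by omega)
      exact ⟨p.concat hw, by simp [hp]⟩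
  have hl : ∀ u v (p : G.Walk u v), h u v ≤ p.length := by
    intro u v p
    have key : ∀ (a b : V) (p : G.Walk a b) (u : V), h u b ≤ h u a + p.length := by
      intro a b p
      induction p with
      | nil => intro u; simp
      | cons e p ih =>
        intro u
        have := ih u
        have := h1 u _ _ e
        simp only [SimpleGraph.Walk.length_cons]
        omega
    have := key u v p u
    rw [h0] at this
    omega
  obtain ⟨p, hp⟩ := hd _ u v rfl
  refine ⟨⟨p⟩, le_antisymm (hp ▸ G.dist_le p) ?_⟩
  obtain ⟨q, hq⟩ := SimpleGraph.Reachable.exists_walk_length_eq_dist ⟨p⟩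
  rw [← hq]; exact hl u v q

theorem D_step : ∀ x : Fin 28, D (x + 1) ≤ D x + 1 ∧ D (x - 1) ≤ D x + 1 ∧ D (x + 4) ≤ D x + 1 ∧
    D (x - 4) ≤ D x + 1 := by decide

theorem D_pred : ∀ x : Fin 28, x ≠ 0 → D x = D (x - 1) + 1 ∨ D x = D (x + 1) + 1 ∨
    D x = D (x - 4) + 1 ∨ D x = D (x + 4) + 1 := by decide

theorem dist_graph (u v : Fin 28) : graph.Reachable u v ∧ graph.dist u v = D (v - u) := by
  refine dist_eq_of graph (fun u v => D (v - u)) (by intro u; simp; decide) ?_ ?_ u v
  · intro u v w h
    have s := D_step (v - u)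
    rcases h with h | h | h | h
    · have : w - u = (v - u) + 1 := by rw [← h]; abel
      simp only [this]; exact s.1
    · have : w - u = (v - u) - 1 := by rw [← h]; abel
      simp only [this]; exact s.2.1
    · have : w - u = (v - u) + 4 := by rw [← h]; abel
      simp only [this]; exact s.2.2.1
    · have : w - u = (v - u) - 4 := by rw [← h]; abel
      simp only [this]; exact s.2.2.2
  · intro u v huv
    have hne : v - u ≠ 0 := fun h => huv (sub_eq_zero.1 h).symm
    rcases D_pred _ hne with h | h | h | h
    · refine ⟨v - 1, Or.inl (by abel), ?_⟩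
      have : v - 1 - u = (v - u) - 1 := by abel
      simp only [this]; exact h
    · refine ⟨v + 1, Or.inr (Or.inl (by abel)), ?_⟩
      have : v + 1 - u = (v - u) + 1 := by abel
      simp only [this]; exact h
    · refine ⟨v - 4, Or.inr (Or.inr (Or.inl (by abel))), ?_⟩
      have : v - 4 - u = (v - u) - 4 := by abel
      simp only [this]; exact h
    · refine ⟨v + 4, Or.inr (Or.inr (Or.inr (by abel))), ?_⟩
      have : v + 4 - u = (v - u) + 4 := by abel
      simp only [this]; exact h

theorem dist_eq (u v : Fin 28) : graph.dist u v = D (v - u) := (dist_graph u v).2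

theorem ecc_eq (v : Fin 28) : ecc graph v = 5 := by
  have : ecc graph v = univ.sup (fun u => D (v - u)) := by
    unfold ecc; simp only [dist_eq]
  rw [this]
  have h : ∀ v : Fin 28, univ.sup (fun u => D (v - u)) = 5 := by decide
  exact h v

theorem ball_eq (k : ℕ) (v : Fin 28) : ball graph k v = univ.filter (fun u => D (v - u) ≤ k) := by
  ext u
  simp [ball, dist_eq]

theorem card1 : ∀ v : Fin 28, (univ.filter (fun u => D (v - u) ≤ 1)).card = 5 := by decide
theorem card2 : ∀ v : Fin 28, (univ.filter (fun u => D (v - u) ≤ 2)).card = 13 := by decide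
theorem card3 : ∀ v : Fin 28, (univ.filter (fun u => D (v - u) ≤ 3)).card = 21 := by decide
theorem card3' : ∀ u : Fin 28, (univ.filter (fun v => D (v - u) ≤ 3)).card = 21 := by decide
theorem card4 : ∀ v : Fin 28, (univ.filter (fun u => D (v - u) ≤ 4)).card = 27 := by decide

theorem connected : graph.Connected := by
  rw [SimpleGraph.connected_iff]
  exact ⟨fun u v => (dist_graph u v).1, ⟨0⟩⟩

/-! ### the broadcast number -/

theorem broadcast_lower {f : Fin 28 → ℕ} (hf : IsDominating graph f) : 5 ≤ ∑ v, f v := by
  by_contra hlt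
  have hle : ∑ v, f v ≤ 4 := by omega
  have hv : ∀ v, f v ≤ 4 := fun v =>
    (single_le_sum (f := f) (fun _ _ => Nat.zero_le _) (mem_univ v)).trans hle
  -- the covered set
  have hcov : (univ : Finset (Fin 28)) ⊆
      (univ.filter (fun v => 1 ≤ f v)).biUnion (fun v => ball graph (f v) v) := by
    intro u _
    obtain ⟨v, h1, h2⟩ := hf.hears u
    simp only [mem_biUnion, mem_filter, mem_univ, true_and]
    exact ⟨v, h1, by simp [ball, h2]⟩
  have hcard := (card_le_card hcov).trans card_biUnion_le
  have hb : ∀ v ∈ univ.filter (fun v => 1 ≤ f v),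
      (ball graph (f v) v).card + (if f v = 3 then 0 else 1) ≤ 7 * f v := by
    intro v h
    simp only [mem_filter, mem_univ, true_and] at h
    rw [ball_eq]
    have := hv v
    generalize f v = k at *
    interval_cases k
    · rw [card1]; decide
    · rw [card2]; decide
    · rw [card3]; decide
    · rw [card4]; decide
  have hsum := sum_le_sum hb
  have h7 : ∑ v ∈ univ.filter (fun v => 1 ≤ f v), 7 * f v ≤ 28 := by
    rw [← mul_sum]
    have : ∑ v ∈ univ.filter (fun v => 1 ≤ f v), f v ≤ ∑ v, f v :=
      sum_le_sum_of_subset (filter_subset _ _)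
    omega
  rw [sum_add_distrib] at hsum
  simp only [card_univ, Fintype.card_fin] at hcard
  have h0 : ∑ v ∈ univ.filter (fun v => 1 ≤ f v), (if f v = 3 then 0 else 1) = 0 := by omega
  have h3 : ∀ v ∈ univ.filter (fun v => 1 ≤ f v), f v = 3 := by
    intro v h
    have := (sum_eq_zero_iff.1 h0) v h
    by_contra h'
    simp [h'] at this
  have h28 : ∑ v ∈ univ.filter (fun v => 1 ≤ f v), 7 * f v = 28 := by omega
  rw [sum_congr rfl (fun v h => by rw [h3 v h])] at h28
  simp only [sum_const, smul_eq_mul] at h28
  omega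

theorem broadcast_eq : broadcastNumber graph = 5 := by
  apply le_antisymm
  · refine Nat.sInf_le ⟨fun v => if v = 0 then 5 else 0, ⟨?_, ?_⟩, ?_⟩
    · intro v; rw [ecc_eq]; split <;> omega
    · intro u
      refine ⟨0, by simp, ?_⟩
      rw [dist_eq]
      simp only [if_true]
      revert u; decide
    · simp
  · refine le_csInf ?_ ?_
    · refine ⟨_, fun v => if v = 0 then 5 else 0, ⟨?_, ?_⟩, rfl⟩
      · intro v; rw [ecc_eq]; split <;> omega
      · intro u
        refine ⟨0, by simp, ?_⟩
        rw [dist_eq]
        simp only [if_true]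
        revert u; decide
    · rintro c ⟨f, hf, rfl⟩
      exact broadcast_lower hf

/-! ### the multipacking number -/

theorem no_four : ∀ a b : Fin 28, a ≠ b → (∀ v : Fin 28, D (v - a) ≤ 3 ∨ D (v - b) ≤ 3) →
    9 ≤ (b - a).1 ∧ (b - a).1 ≤ 19 := by decide

theorem multipacking_upper {M : Finset (Fin 28)} (hM : IsMultipacking graph M) : M.card ≤ 3 := by
  by_contra hlt
  obtain ⟨M', hsub, hc⟩ := exists_subset_card_eq (show 4 ≤ M.card by omega)
  have hM' : ∀ v, (M'.filter (fun u => D (v - u) ≤ 3)).card ≤ 3 := by
    intro v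
    have := hM v 3 (by norm_num)
    simp only [dist_eq] at this
    exact (card_le_card (filter_subset_filter _ hsub)).trans this
  -- double counting
  have hdc : ∑ v, (M'.filter (fun u => D (v - u) ≤ 3)).card = 84 := by
    have e1 : ∀ v : Fin 28, (M'.filter (fun u => D (v - u) ≤ 3)).card =
        ∑ u ∈ M', if D (v - u) ≤ 3 then 1 else 0 := by
      intro v
      rw [sum_boole, Nat.cast_id]
    simp only [e1]
    rw [sum_comm]
    have e2 : ∀ u ∈ M', ∑ v : Fin 28, (if D (v - u) ≤ 3 then 1 else 0) = 21 := by
      intro u _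
      rw [sum_boole, Nat.cast_id, card3']
    rw [sum_congr rfl e2]
    simp [hc]
  have hpair : ∀ a ∈ M', ∀ b ∈ M', a ≠ b → ∀ v : Fin 28, D (v - a) ≤ 3 ∨ D (v - b) ≤ 3 := by
    intro a ha b hb hab v
    by_contra hcon
    push Not at hcon
    have h2 : (M'.filter (fun u => D (v - u) ≤ 3)).card ≤ 2 := by
      have hs : M'.filter (fun u => D (v - u) ≤ 3) ⊆ (M'.erase a).erase b := by
        intro u hu
        simp only [mem_filter] at hu
        simp only [mem_erase]
        refine ⟨?_, ?_, hu.1⟩
        · rintro rfl; omega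
        · rintro rfl; omega
      have := card_le_card hs
      rw [card_erase_of_mem (mem_erase.2 ⟨hab.symm, hb⟩), card_erase_of_mem ha, hc] at this
      omega
    have hlt : ∑ w, (M'.filter (fun u => D (w - u) ≤ 3)).card < ∑ _w : Fin 28, 3 := by
      apply sum_lt_sum (fun w _ => hM' w)
      exact ⟨v, mem_univ v, by omega⟩
    rw [hdc] at hlt
    simp at hlt
  -- four points on the circle of length 28 with gaps at least 9
  obtain ⟨a, b, c, d, hab, hac, had, hbc, hbd, hcd, rfl⟩ := card_eq_four.1 hc
  have k := fun x hx y hy h => no_four x y h (hpair x hx y hy h)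
  have k1 := k a (by simp) b (by simp) hab
  have k2 := k a (by simp) c (by simp) hac
  have k3 := k a (by simp) d (by simp) had
  have k4 := k b (by simp) c (by simp) hbc
  have k5 := k b (by simp) d (by simp) hbd
  have k6 := k c (by simp) d (by simp) hcd
  rw [Fin.sub_def] at k1 k2 k3 k4 k5 k6
  simp only at k1 k2 k3 k4 k5 k6
  have := a.2; have := b.2; have := c.2; have := d.2
  omega

theorem multipacking_example : IsMultipacking graph {0, 9, 18} := by
  intro v k hk
  simp only [dist_eq]
  rcases Nat.lt_or_ge k 3 with h3 | h3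
  · interval_cases k
    · have h : ∀ v : Fin 28, (({0, 9, 18} : Finset (Fin 28)).filter
          (fun u => D (v - u) ≤ 1)).card ≤ 1 := by decide
      exact h v
    · have h : ∀ v : Fin 28, (({0, 9, 18} : Finset (Fin 28)).filter
          (fun u => D (v - u) ≤ 2)).card ≤ 2 := by decide
      exact h v
  · refine (card_le_card (filter_subset _ _)).trans ?_
    have : ({0, 9, 18} : Finset (Fin 28)).card = 3 := by decide
    omega

theorem multipacking_eq : multipackingNumber graph = 3 := by
  apply le_antisymm
  · refine csSup_le ⟨_, _, multipacking_example, rfl⟩ ?_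
    rintro m ⟨M, hM, rfl⟩
    exact multipacking_upper hM
  · refine le_csSup ⟨3, ?_⟩ ⟨_, multipacking_example, by decide⟩
    rintro m ⟨M, hM, rfl⟩
    exact multipacking_upper hM

/-! ### the fractional broadcast number -/

theorem fractional_lower {x : Fin 28 → ℕ → ℝ} (hx : IsFractional graph x) :
    4 ≤ ∑ v, ∑ k ∈ Icc 1 (ecc graph v), (k : ℝ) * x v k := by
  have h1 : (28 : ℝ) ≤ ∑ u : Fin 28, ∑ v, ∑ k ∈ Icc 1 (ecc graph v),
      if graph.dist u v ≤ k then x v k else 0 := by
    calc (28 : ℝ) = ∑ _u : Fin 28, (1 : ℝ) := by simp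
      _ ≤ _ := sum_le_sum (fun u _ => hx.hears u)
  rw [sum_comm] at h1
  have h2 : ∀ v : Fin 28, ∑ u : Fin 28, ∑ k ∈ Icc 1 (ecc graph v),
      (if graph.dist u v ≤ k then x v k else 0) ≤
      ∑ k ∈ Icc 1 (ecc graph v), 7 * ((k : ℝ) * x v k) := by
    intro v
    rw [sum_comm]
    refine sum_le_sum (fun k hk => ?_)
    rw [ecc_eq, mem_Icc] at hk
    have e : ∑ u : Fin 28, (if graph.dist u v ≤ k then x v k else 0) =
        ((univ.filter (fun u => D (v - u) ≤ k)).card : ℝ) * x v k := by
      simp only [dist_eq]
      rw [← sum_filter, sum_const, nsmul_eq_mul]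
    rw [e, ← mul_assoc]
    refine mul_le_mul_of_nonneg_right ?_ (hx.nonneg v k)
    obtain ⟨hk1, hk2⟩ := hk
    interval_cases k
    · rw [card1]; norm_num
    · rw [card2]; norm_num
    · rw [card3]; norm_num
    · rw [card4]; norm_num
    · have : (univ.filter (fun u => D (v - u) ≤ 5)).card ≤ 28 := by
        refine (card_le_univ _).trans ?_
        simp
      have : ((univ.filter (fun u => D (v - u) ≤ 5)).card : ℝ) ≤ 28 := by exact_mod_cast this
      norm_num
      linarith
  have h3 := h1.trans (sum_le_sum (fun v _ => h2 v))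
  simp only [← mul_sum] at h3
  linarith

theorem fractional_example : IsFractional graph (fun _ k => if k = 3 then 1 / 21 else 0) := by
  refine ⟨fun v k => by positivity, fun u => ?_⟩
  have e : ∀ v : Fin 28, ∑ k ∈ Icc 1 (ecc graph v),
      (if graph.dist u v ≤ k then (if k = 3 then (1 / 21 : ℝ) else 0) else 0) =
      if D (v - u) ≤ 3 then 1 / 21 else 0 := by
    intro v
    rw [ecc_eq, dist_eq, sum_eq_single 3]
    · simp
    · intro k _ hk; simp [hk]
    · intro h; simp at h
  rw [sum_congr rfl (fun v _ => e v), ← sum_filter, sum_const, card3']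
  norm_num

theorem fractional_cost : ∑ v : Fin 28, ∑ k ∈ Icc 1 (ecc graph v),
    (k : ℝ) * (if k = 3 then 1 / 21 else 0) = 4 := by
  have e : ∀ v : Fin 28, ∑ k ∈ Icc 1 (ecc graph v), (k : ℝ) * (if k = 3 then 1 / 21 else 0) =
      1 / 7 := by
    intro v
    rw [ecc_eq, sum_eq_single 3]
    · norm_num
    · intro k _ hk; simp [hk]
    · intro h; simp at h
  rw [sum_congr rfl (fun v _ => e v)]
  norm_num

theorem fractional_eq : fractionalBroadcastNumber graph = 4 := by
  apply le_antisymm
  · refine csInf_le ⟨4, ?_⟩ ⟨_, fractional_example, fractional_cost⟩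
    rintro c ⟨x, hx, rfl⟩
    exact fractional_lower hx
  · refine le_csInf ⟨_, _, fractional_example, rfl⟩ ?_
    rintro c ⟨x, hx, rfl⟩
    exact fractional_lower hx

/-- **There is a connected graph whose fractional broadcast number is an integer strictly between
the multipacking number and the broadcast domination number.** For the circulant graph `C_28(1, 4)`
the three numbers are `3 < 4 < 5`. -/
theorem result : ∃ G : SimpleGraph (Fin 28), G.Connected ∧ multipackingNumber G = 3 ∧
    fractionalBroadcastNumber G = 4 ∧ broadcastNumber G = 5 :=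
  ⟨graph, connected, multipacking_eq, fractional_eq, broadcast_eq⟩

end Pool.Agent.Results.MP_93535d_co.Circulant28
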